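import Pool.Agent.Helper81.XP.StB

set_option autoImplicit false

/-!
MP_f90738_co, module PWD: the entries of words are polynomials.
-/

open Finset
open scoped Pointwise LinearAlgebra.Projectivization

namespace Pool.Agent.Helper58.XP

open Pool.Agent.Helper81.XP

/-- polynomial matrices of the five letters -/
noncomputable def Lp (k : Type) [Field k] : Fin 5 → Matrix (Fin 2) (Fin 2) (MvPolynomial (Fin 3) k) :=
  ![!![MvPolynomial.X 2, 0; 0, MvPolynomial.X 2],
    !![MvPolynomial.X 0 * MvPolynomial.X 2, - MvPolynomial.X 2; MvPolynomial.X 2, 0],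
    !![0, MvPolynomial.X 2; - MvPolynomial.X 2, MvPolynomial.X 0 * MvPolynomial.X 2],
    !![0, MvPolynomial.X 2 * MvPolynomial.X 2; - 1, MvPolynomial.X 1 * MvPolynomial.X 2],
    !![MvPolynomial.X 1 * MvPolynomial.X 2, - (MvPolynomial.X 2 * MvPolynomial.X 2); 1, 0]]

theorem pwd_X (k : Type) [Field k] (i : Fin 3) :
    (MvPolynomial.X i : MvPolynomial (Fin 3) k).totalDegree ≤ 1 := by
  rw [MvPolynomial.totalDegree_X]

theorem pwd_XX (k : Type) [Field k] (i j : Fin 3) :
    (MvPolynomial.X i * MvPolynomial.X j : MvPolynomial (Fin 3) k).totalDegree ≤ 2 := by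
  refine (MvPolynomial.totalDegree_mul _ _).trans ?_
  rw [MvPolynomial.totalDegree_X, MvPolynomial.totalDegree_X]

theorem pwd_mat {R : Type} (Q : R → Prop) {a b c d : R} (ha : Q a) (hb : Q b) (hc : Q c)
    (hd : Q d) (i j : Fin 2) : Q ((!![a, b; c, d] : Matrix (Fin 2) (Fin 2) R) i j) := by
  fin_cases i <;> fin_cases j
  · exact ha
  · exact hb
  · exact hc
  · exact hd

theorem pwd_deg (k : Type) [Field k] (c : Fin 5) (i j : Fin 2) :
    (Lp k c i j).totalDegree ≤ 2 := by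
  have h1 : ∀ i : Fin 3, (MvPolynomial.X i : MvPolynomial (Fin 3) k).totalDegree ≤ 2 :=
    fun i => (pwd_X k i).trans (by norm_num)
  have h2 := pwd_XX k
  have h3 : ∀ i : Fin 3, (- MvPolynomial.X i : MvPolynomial (Fin 3) k).totalDegree ≤ 2 := by
    intro i
    rw [MvPolynomial.totalDegree_neg]
    exact h1 i
  have h4 : ∀ i j : Fin 3,
      (- (MvPolynomial.X i * MvPolynomial.X j) : MvPolynomial (Fin 3) k).totalDegree ≤ 2 := by
    intro i j
    rw [MvPolynomial.totalDegree_neg]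
    exact h2 i j
  have h5 : (0 : MvPolynomial (Fin 3) k).totalDegree ≤ 2 := by
    rw [MvPolynomial.totalDegree_zero]; norm_num
  have h6 : (1 : MvPolynomial (Fin 3) k).totalDegree ≤ 2 := by
    rw [MvPolynomial.totalDegree_one]; norm_num
  have h7 : (- 1 : MvPolynomial (Fin 3) k).totalDegree ≤ 2 := by
    rw [MvPolynomial.totalDegree_neg]; exact h6
  fin_cases c
  · exact pwd_mat (fun p : MvPolynomial (Fin 3) k => p.totalDegree ≤ 2) (h1 2) h5 h5 (h1 2) i j
  · exact pwd_mat (fun p : MvPolynomial (Fin 3) k => p.totalDegree ≤ 2) (h2 0 2) (h3 2) (h1 2) h5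
      i j
  · exact pwd_mat (fun p : MvPolynomial (Fin 3) k => p.totalDegree ≤ 2) h5 (h1 2) (h3 2) (h2 0 2)
      i j
  · exact pwd_mat (fun p : MvPolynomial (Fin 3) k => p.totalDegree ≤ 2) h5 (h2 2 2) h7 (h2 1 2)
      i j
  · exact pwd_mat (fun p : MvPolynomial (Fin 3) k => p.totalDegree ≤ 2) (h2 1 2) (h4 2 2) h6 h5
      i j

theorem pwd_inv {K : Type} [Field K] (g : SL K) :
    ((g⁻¹ : SL K) : Matrix (Fin 2) (Fin 2) K) =
      !![(g : Matrix (Fin 2) (Fin 2) K) 1 1, -(g : Matrix (Fin 2) (Fin 2) K) 0 1;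
        -(g : Matrix (Fin 2) (Fin 2) K) 1 0, (g : Matrix (Fin 2) (Fin 2) K) 0 0] := by
  rw [Matrix.SpecialLinearGroup.coe_inv, Matrix.adjugate_fin_two]

theorem pwd_A {K : Type} [Field K] (P : Fin 3 → K) :
    ((vA P : SL K) : Matrix (Fin 2) (Fin 2) K) = !![P 0, -1; 1, 0] := rfl

theorem pwd_B {K : Type} [Field K] (P : Fin 3 → K) (hP : P 2 ≠ 0) :
    ((vB P : SL K) : Matrix (Fin 2) (Fin 2) K) = !![0, P 2; -(P 2)⁻¹, P 1] := by
  have h : mB (P 1) (P 2) = (⟨!![0, P 2; -(P 2)⁻¹, P 1], by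
      simp [Matrix.det_fin_two, hP]⟩ : SL K) := dif_pos hP
  show ((mB (P 1) (P 2) : SL K) : Matrix (Fin 2) (Fin 2) K) = _
  rw [h]

theorem pwd_ev (k : Type) [Field k] (K : Type) [Field K] [Algebra k K] (P : Fin 3 → K)
    (hP : P 2 ≠ 0) (c : Fin 5) (i j : Fin 2) :
    MvPolynomial.aeval P (Lp k c i j) =
      P 2 * ((lt (vA P) (vB P) c : SL K) : Matrix (Fin 2) (Fin 2) K) i j := by
  have e : P 2 * (P 2)⁻¹ = 1 := mul_inv_cancel₀ hP
  have l0 : ((lt (vA P) (vB P) 0 : SL K) : Matrix (Fin 2) (Fin 2) K) = 1 := by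
    simp [lt]
  have l1 : ((lt (vA P) (vB P) 1 : SL K) : Matrix (Fin 2) (Fin 2) K) = !![P 0, -1; 1, 0] := rfl
  have l2 : ((lt (vA P) (vB P) 2 : SL K) : Matrix (Fin 2) (Fin 2) K) = !![0, 1; -1, P 0] := by
    have h : lt (vA P) (vB P) 2 = (vA P)⁻¹ := rfl
    rw [h, pwd_inv, pwd_A]
    simp
  have l3 : ((lt (vA P) (vB P) 3 : SL K) : Matrix (Fin 2) (Fin 2) K) =
      !![0, P 2; -(P 2)⁻¹, P 1] := by
    have h : lt (vA P) (vB P) 3 = vB P := rfl
    rw [h, pwd_B P hP]
  have l4 : ((lt (vA P) (vB P) 4 : SL K) : Matrix (Fin 2) (Fin 2) K) =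
      !![P 1, - P 2; (P 2)⁻¹, 0] := by
    have h : lt (vA P) (vB P) 4 = (vB P)⁻¹ := rfl
    rw [h, pwd_inv, pwd_B P hP]
    simp
  fin_cases c
  · show MvPolynomial.aeval P (Lp k 0 i j) =
      P 2 * ((lt (vA P) (vB P) 0 : SL K) : Matrix (Fin 2) (Fin 2) K) i j
    rw [l0]
    fin_cases i <;> fin_cases j <;> simp [Lp]
  · show MvPolynomial.aeval P (Lp k 1 i j) =
      P 2 * ((lt (vA P) (vB P) 1 : SL K) : Matrix (Fin 2) (Fin 2) K) i j
    rw [l1]
    fin_cases i <;> fin_cases j <;> simp [Lp, mul_comm]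
  · show MvPolynomial.aeval P (Lp k 2 i j) =
      P 2 * ((lt (vA P) (vB P) 2 : SL K) : Matrix (Fin 2) (Fin 2) K) i j
    rw [l2]
    fin_cases i <;> fin_cases j <;> simp [Lp, mul_comm]
  · show MvPolynomial.aeval P (Lp k 3 i j) =
      P 2 * ((lt (vA P) (vB P) 3 : SL K) : Matrix (Fin 2) (Fin 2) K) i j
    rw [l3]
    fin_cases i <;> fin_cases j <;> simp [Lp, mul_comm, hP]
  · show MvPolynomial.aeval P (Lp k 4 i j) =
      P 2 * ((lt (vA P) (vB P) 4 : SL K) : Matrix (Fin 2) (Fin 2) K) i j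
    rw [l4]
    fin_cases i <;> fin_cases j <;> simp [Lp, mul_comm, hP]

/-- polynomial matrix of a word -/
noncomputable def Wp (k : Type) [Field k] {n : ℕ} (w : Fin n → Fin 5) :
    Matrix (Fin 2) (Fin 2) (MvPolynomial (Fin 3) k) :=
  (List.ofFn fun i => Lp k (w i)).prod

theorem pwd_wdeg (k : Type) [Field k] (n : ℕ) : ∀ (w : Fin n → Fin 5) (i j : Fin 2),
    (Wp k w i j).totalDegree ≤ 2 * n := by
  induction n with
  | zero =>
    intro w i j
    simp only [Wp, List.ofFn_zero, List.prod_nil, mul_zero, nonpos_iff_eq_zero]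
    by_cases h : i = j
    · subst h
      rw [Matrix.one_apply_eq, MvPolynomial.totalDegree_one]
    · rw [Matrix.one_apply_ne h, MvPolynomial.totalDegree_zero]
  | succ n ih =>
    intro w i j
    have e : Wp k w = Lp k (w 0) * Wp k (fun i : Fin n => w i.succ) := by
      simp only [Wp, List.ofFn_succ, List.prod_cons]
    rw [e, Matrix.mul_apply, Fin.sum_univ_two]
    refine (MvPolynomial.totalDegree_add _ _).trans ?_
    have h : ∀ l : Fin 2, (Lp k (w 0) i l * Wp k (fun i : Fin n => w i.succ) l j).totalDegree ≤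
        2 * (n + 1) := by
      intro l
      refine (MvPolynomial.totalDegree_mul _ _).trans ?_
      have h1 := pwd_deg k (w 0) i l
      have h2 := ih (fun i : Fin n => w i.succ) l j
      omega
    exact max_le (h 0) (h 1)

theorem pwd_wev (k : Type) [Field k] (K : Type) [Field K] [Algebra k K] (P : Fin 3 → K)
    (hP : P 2 ≠ 0) (n : ℕ) : ∀ (w : Fin n → Fin 5) (i j : Fin 2),
    P 2 ^ n * ((wd (vA P) (vB P) w : SL K) : Matrix (Fin 2) (Fin 2) K) i j =
      MvPolynomial.aeval P (Wp k w i j) := by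
  induction n with
  | zero =>
    intro w i j
    simp only [Wp, wd, List.ofFn_zero, List.prod_nil, pow_zero, one_mul]
    by_cases h : i = j
    · subst h
      rw [Matrix.one_apply_eq, map_one, Matrix.SpecialLinearGroup.coe_one, Matrix.one_apply_eq]
    · rw [Matrix.one_apply_ne h, map_zero, Matrix.SpecialLinearGroup.coe_one,
        Matrix.one_apply_ne h]
  | succ n ih =>
    intro w i j
    have e : Wp k w = Lp k (w 0) * Wp k (fun i : Fin n => w i.succ) := by
      simp only [Wp, List.ofFn_succ, List.prod_cons]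
    have e2 : wd (vA P) (vB P) w =
        lt (vA P) (vB P) (w 0) * wd (vA P) (vB P) (fun i : Fin n => w i.succ) := by
      simp only [wd, List.ofFn_succ, List.prod_cons]
    rw [e, e2, Matrix.SpecialLinearGroup.coe_mul, Matrix.mul_apply, Matrix.mul_apply,
      Fin.sum_univ_two, Fin.sum_univ_two, map_add, map_mul, map_mul, ← ih, ← ih,
      pwd_ev k K P hP, pwd_ev k K P hP]
    ring

theorem st_PWD : ST_PWD := by
  intro k _ n w
  exact ⟨Wp k w, pwd_wdeg k n w, fun K _ _ P hP i j => pwd_wev k K P hP n w i j⟩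

end Pool.Agent.Helper58.XP
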